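import Pool.Agent.W170.Z3.Stm

/-!
# Irrationality exponent of `ζ(3)`: floors in a cell, and the sum over the classes in a cell
-/

open Polynomial Pool.Agent.H337R2 Filter Topology
open Pool.Agent.W170.Z3

namespace Pool.Agent.W52.Z3

lemma TT_nonneg (y : ℤ) : 0 ≤ TT y := by
  unfold TT Pool.Agent.H336R2.HD.TT
  split_ifs with h
  · exact Int.ediv_nonneg (by positivity) (by norm_num)
  · exact le_rfl

lemma cost_nonneg (c : Cell) (e s : ℤ) : 0 ≤ c.cost e s := by
  unfold Cell.cost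
  split_ifs
  · exact TT_nonneg _
  · exact TT_nonneg _
  · exact le_rfl

/-- sum of the weights with indicators -/
def ind (w : ℕ → ℤ) (ρ : ℕ → ℕ) (r : ℕ) (l : List ℕ) : ℤ :=
  (l.map fun b => if r ≤ ρ b then w b else 0).sum

lemma ind_all (w : ℕ → ℤ) (ρ : ℕ → ℕ) (r : ℕ) (l : List ℕ) (h : ∀ b ∈ l, r ≤ ρ b) :
    ind w ρ r l = (l.map w).sum := by
  unfold ind
  congr 1
  exact List.map_congr_left (fun b hb => by rw [if_pos (h b hb)])

lemma ind_cons (w : ℕ → ℤ) (ρ : ℕ → ℕ) (r b : ℕ) (l : List ℕ) :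
    ind w ρ r (b :: l) = (if r ≤ ρ b then w b else 0) + ind w ρ r l := by
  unfold ind
  rw [List.map_cons, List.sum_cons]

lemma go_bound (c : Cell) (n p : ℕ) (hp : 1 ≤ p) (ρ : ℕ → ℕ) :
    ∀ (l : List ℕ) (a : ℕ) (eb sb : ℤ),
      (∀ b ∈ a :: l, ρ b < p ∧ (ρ b : ℤ) = (b : ℤ) * n - (c.fl b : ℤ) * p) →
      (a :: l).Pairwise (fun x y => ρ x ≤ ρ y) →
      ∑ r ∈ Finset.Ioc (ρ a) (p - 1), c.cost (eb + ind wtE ρ r l) (sb + ind wtS ρ r l) ≤
        (c.go a (eb + (l.map wtE).sum) (sb + (l.map wtS).sum) l).1 * n +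
        (c.go a (eb + (l.map wtE).sum) (sb + (l.map wtS).sum) l).2 * p := by
  intro l
  induction l with
  | nil =>
    intro a eb sb h1 _
    obtain ⟨h2, h3⟩ := h1 a (by simp)
    simp only [ind, List.map_nil, List.sum_nil, add_zero, Cell.go]
    rw [Finset.sum_const, Nat.card_Ioc, nsmul_eq_mul]
    have h4 : ((p - 1 - ρ a : ℕ) : ℤ) = p - 1 - ρ a := by omega
    rw [h4, h3]
    have h5 := cost_nonneg c eb sb
    nlinarith
  | cons b l ih =>
    intro a eb sb h1 h2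
    rw [List.pairwise_cons] at h2
    obtain ⟨h3, h4⟩ := h2
    have hab : ρ a ≤ ρ b := h3 b (by simp)
    obtain ⟨ha1, ha2⟩ := h1 a (by simp)
    obtain ⟨hb1, hb2⟩ := h1 b (by simp)
    have hsplit : Finset.Ioc (ρ a) (p - 1) = Finset.Ioc (ρ a) (ρ b) ∪ Finset.Ioc (ρ b) (p - 1) := by
      rw [Finset.Ioc_union_Ioc_eq_Ioc hab (by omega)]
    have hdisj : Disjoint (Finset.Ioc (ρ a) (ρ b)) (Finset.Ioc (ρ b) (p - 1)) := by
      rw [Finset.disjoint_left]
      intro x hx hx'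
      rw [Finset.mem_Ioc] at hx hx'
      omega
    rw [hsplit, Finset.sum_union hdisj]
    have hbl : ∀ b' ∈ b :: l, ρ b ≤ ρ b' := by
      intro b' hb'
      rcases List.mem_cons.mp hb' with rfl | hb'
      · exact le_rfl
      · exact (List.pairwise_cons.mp h4).1 b' hb'
    have e1 : ∑ r ∈ Finset.Ioc (ρ a) (ρ b), c.cost (eb + ind wtE ρ r (b :: l)) (sb + ind wtS ρ r (b :: l)) =
        (((b : ℤ) - a) * n - ((c.fl b : ℤ) - c.fl a) * p) *
          c.cost (eb + ((b :: l).map wtE).sum) (sb + ((b :: l).map wtS).sum) := by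
      have e2 : ∀ r ∈ Finset.Ioc (ρ a) (ρ b),
          c.cost (eb + ind wtE ρ r (b :: l)) (sb + ind wtS ρ r (b :: l)) =
          c.cost (eb + ((b :: l).map wtE).sum) (sb + ((b :: l).map wtS).sum) := by
        intro r hr
        have hr2 : r ≤ ρ b := (Finset.mem_Ioc.mp hr).2
        rw [ind_all wtE ρ r (b :: l) (fun b' hb' => hr2.trans (hbl b' hb')),
          ind_all wtS ρ r (b :: l) (fun b' hb' => hr2.trans (hbl b' hb'))]
      rw [Finset.sum_congr rfl e2, Finset.sum_const, Nat.card_Ioc, nsmul_eq_mul]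
      have h6 : ((ρ b - ρ a : ℕ) : ℤ) = ρ b - ρ a := by omega
      rw [h6, hb2, ha2]
      ring
    have e3 : ∑ r ∈ Finset.Ioc (ρ b) (p - 1), c.cost (eb + ind wtE ρ r (b :: l)) (sb + ind wtS ρ r (b :: l)) =
        ∑ r ∈ Finset.Ioc (ρ b) (p - 1), c.cost (eb + ind wtE ρ r l) (sb + ind wtS ρ r l) := by
      refine Finset.sum_congr rfl (fun r hr => ?_)
      have hr1 : ¬ r ≤ ρ b := by
        have := (Finset.mem_Ioc.mp hr).1
        omega
      rw [ind_cons, ind_cons, if_neg hr1, if_neg hr1, zero_add, zero_add]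
    have h7 := ih b eb sb (fun b' hb' => h1 b' (List.mem_cons_of_mem _ hb')) h4
    rw [e1, e3]
    have e4 : eb + ((b :: l).map wtE).sum - wtE b = eb + (l.map wtE).sum := by
      rw [List.map_cons, List.sum_cons]; ring
    have e5 : sb + ((b :: l).map wtS).sum - wtS b = sb + (l.map wtS).sum := by
      rw [List.map_cons, List.sum_cons]; ring
    simp only [Cell.go]
    rw [e4, e5]
    linarith

lemma div_sub (p x r : ℕ) (hp : 0 < p) (hr : r < p) :
    ((x : ℤ) - r) / p = ((x / p : ℕ) : ℤ) - 1 + if r ≤ x % p then 1 else 0 := by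
  have hp' : (0 : ℤ) < p := by exact_mod_cast hp
  have h1 : (x : ℤ) = (x % p : ℕ) + p * (x / p : ℕ) := by
    exact_mod_cast (Nat.mod_add_div x p).symm
  have h2 : x % p < p := Nat.mod_lt _ hp
  have e : (x : ℤ) - r = ((x % p : ℕ) : ℤ) - r + p * (x / p : ℕ) := by linarith
  rw [e, Int.add_mul_ediv_left _ _ hp'.ne']
  split_ifs with h
  · have h3 : (((x % p : ℕ) : ℤ) - r) / p = 0 := Int.ediv_eq_zero_of_lt (by omega) (by omega)
    rw [h3]; ring
  · have h3 : (((x % p : ℕ) : ℤ) - r) / p = -1 := by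
      have h4 : (((x % p : ℕ) : ℤ) - r) = ((((x % p : ℕ) : ℤ) - r) + p) + p * (-1) := by ring
      rw [h4, Int.add_mul_ediv_left _ _ hp'.ne', Int.ediv_eq_zero_of_lt (by omega) (by omega)]
      ring
    rw [h3]; ring

lemma cnt_thr (p A B r : ℕ) (hp : 0 < p) (hAB : A ≤ B) (hr : r < p) :
    (cnt p (A + 1) B r : ℤ) = ((B / p : ℕ) : ℤ) - ((A / p : ℕ) : ℤ) +
      (if r ≤ B % p then 1 else 0) - (if r ≤ A % p then 1 else 0) := by
  rw [cnt_eq p (A + 1) B r hp (by omega)]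
  have h1 := div_sub p B r hp hr
  have h2 := div_sub p A r hp hr
  have e : (((A + 1 : ℕ) : ℤ) - 1 - r) = (A : ℤ) - r := by push_cast; ring
  rw [e, h1, h2]
  ring

/-- floors in a cell -/
lemma fl_eq {c : Cell} {n p a : ℕ} (hv1 : 0 < c.v1)
    (h0 : c.u0 * n < p * c.v0) (h1 : p * c.v1 ≤ c.u1 * n) (ha : a * c.v0 ≤ (c.fl a + 1) * c.u0) :
    a * n / p = c.fl a := by
  have hfl : c.fl a * c.u1 ≤ a * c.v1 := Nat.div_mul_le_self _ _
  have hlow : c.fl a * p ≤ a * n := by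
    have : c.fl a * p * c.v1 ≤ a * n * c.v1 := by
      calc c.fl a * p * c.v1 = c.fl a * (p * c.v1) := by ring
        _ ≤ c.fl a * (c.u1 * n) := Nat.mul_le_mul_left _ h1
        _ = c.fl a * c.u1 * n := by ring
        _ ≤ a * c.v1 * n := Nat.mul_le_mul_right _ hfl
        _ = a * n * c.v1 := by ring
    exact Nat.le_of_mul_le_mul_right this hv1
  have hup : a * n < (c.fl a + 1) * p := by
    have : a * n * c.v0 < (c.fl a + 1) * p * c.v0 := by
      calc a * n * c.v0 = a * c.v0 * n := by ring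
        _ ≤ (c.fl a + 1) * c.u0 * n := Nat.mul_le_mul_right _ ha
        _ = (c.fl a + 1) * (c.u0 * n) := by ring
        _ < (c.fl a + 1) * (p * c.v0) := Nat.mul_lt_mul_of_pos_left h0 (Nat.succ_pos _)
        _ = (c.fl a + 1) * p * c.v0 := by ring
    exact Nat.lt_of_mul_lt_mul_right this
  exact Nat.div_eq_of_lt_le hlow hup

/-- order of the residues -/
lemma ord {c : Cell} {n p x y : ℕ} (hv0 : 0 < c.v0) (hv1 : 0 < c.v1)
    (h0 : c.u0 * n < p * c.v0) (h1 : p * c.v1 ≤ c.u1 * n)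
    (hx : (x * n % p : ℕ) = (x : ℤ) * n - (c.fl x : ℤ) * p)
    (hy : (y * n % p : ℕ) = (y : ℤ) * n - (c.fl y : ℤ) * p)
    (ha : 0 ≤ ((y : ℤ) - x) * c.v0 - ((c.fl y : ℤ) - c.fl x) * c.u0)
    (hb : 0 ≤ ((y : ℤ) - x) * c.v1 - ((c.fl y : ℤ) - c.fl x) * c.u1) :
    x * n % p ≤ y * n % p := by
  have h0' : (c.u0 : ℤ) * n < p * c.v0 := by exact_mod_cast h0
  have h1' : (p : ℤ) * c.v1 ≤ c.u1 * n := by exact_mod_cast h1
  have hv0' : (0 : ℤ) < c.v0 := by exact_mod_cast hv0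
  have hv1' : (0 : ℤ) < c.v1 := by exact_mod_cast hv1
  have hn : (0 : ℤ) ≤ n := Int.natCast_nonneg n
  have key : ((c.fl y : ℤ) - c.fl x) * p ≤ ((y : ℤ) - x) * n := by
    rcases le_or_gt 0 ((c.fl y : ℤ) - c.fl x) with hB | hB
    · have : ((c.fl y : ℤ) - c.fl x) * p * c.v1 ≤ ((y : ℤ) - x) * n * c.v1 := by
        nlinarith [mul_le_mul_of_nonneg_left h1' hB, mul_nonneg hb hn]
      exact le_of_mul_le_mul_right this hv1'
    · have : ((c.fl y : ℤ) - c.fl x) * p * c.v0 ≤ ((y : ℤ) - x) * n * c.v0 := by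
        nlinarith [mul_le_mul_of_nonneg_left h0'.le (neg_pos.mpr hB).le, mul_nonneg ha hn]
      exact le_of_mul_le_mul_right this hv0'
  have : ((x * n % p : ℕ) : ℤ) ≤ ((y * n % p : ℕ) : ℤ) := by
    rw [hx, hy]
    linarith
  exact_mod_cast this

/-- floors in a cell -/
theorem E1 : StE1 := by
  intro c hc n p _ h0 h1 a ha
  unfold Cell.ok at hc
  simp only [Bool.and_eq_true, decide_eq_true_eq] at hc
  obtain ⟨⟨⟨⟨⟨⟨⟨⟨hu0, hv0⟩, hu1⟩, hv1⟩, huv⟩, hfl⟩, hperm⟩, hord⟩, -⟩ := hc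
  rw [List.all_eq_true] at hfl
  have := hfl a ha
  rw [decide_eq_true_eq] at this
  exact fl_eq hv1 h0 h1 this

/-- sum over the classes -/
theorem E2 : StE2 := by
  intro c hc n p hn hp h0 h1 f K hK hf0 hf
  have hp0 : 0 < p := hp.pos
  -- unfold the validity
  unfold Cell.ok at hc
  simp only [Bool.and_eq_true, decide_eq_true_eq] at hc
  obtain ⟨⟨⟨⟨⟨⟨⟨⟨hu0, hv0⟩, hu1⟩, hv1⟩, huv⟩, hfl⟩, hperm⟩, hord⟩, -⟩ := hc
  have hfl' : ∀ a ∈ [2, 4, 5, 6, 7, 12], a * n / p = c.fl a := by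
    intro a ha
    rw [List.all_eq_true] at hfl
    have := hfl a ha
    rw [decide_eq_true_eq] at this
    exact fl_eq hv1 h0 h1 this
  have hP : c.od.Perm [4, 5, 6, 12] := List.isPerm_iff.mp hperm
  have hrho : ∀ a ∈ [2, 4, 5, 6, 7, 12],
      ((a * n % p : ℕ) : ℤ) = (a : ℤ) * n - (c.fl a : ℤ) * p := by
    intro a ha
    have h2 := Nat.mod_add_div (a * n) p
    rw [hfl' a ha] at h2
    have h3 : ((a * n % p : ℕ) : ℤ) + p * c.fl a = a * n := by exact_mod_cast h2
    linarith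
  have hmem : ∀ b ∈ c.od, b ∈ [2, 4, 5, 6, 7, 12] := by
    intro b hb
    have := hP.mem_iff.mp hb
    simp only [List.mem_cons, List.not_mem_nil, or_false] at this ⊢
    tauto
  -- the order
  have hpw : (0 :: c.od).Pairwise (fun x y => x * n % p ≤ y * n % p) := by
    rw [List.pairwise_cons]
    refine ⟨fun b _ => by simp, ?_⟩
    have hlen : c.od.length = 4 := by simpa using hP.length_eq
    obtain ⟨x1, x2, x3, x4, hod⟩ : ∃ x1 x2 x3 x4, c.od = [x1, x2, x3, x4] := by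
      match h : c.od, hlen with
      | [x1, x2, x3, x4], _ => exact ⟨x1, x2, x3, x4, rfl⟩
    rw [hod] at hord hmem ⊢
    simp only [List.drop_succ_cons, List.drop_zero, List.zip_cons_cons, List.all_cons, List.zip_nil_right,
      List.all_nil, Bool.and_true, Bool.and_eq_true, decide_eq_true_eq] at hord
    obtain ⟨⟨a1, b1⟩, ⟨a2, b2⟩, ⟨a3, b3⟩⟩ := hord
    have m1 := hrho x1 (hmem x1 (by simp))
    have m2 := hrho x2 (hmem x2 (by simp))
    have m3 := hrho x3 (hmem x3 (by simp))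
    have m4 := hrho x4 (hmem x4 (by simp))
    have o1 := ord hv0 hv1 h0 h1 m1 m2 a1 b1
    have o2 := ord hv0 hv1 h0 h1 m2 m3 a2 b2
    have o3 := ord hv0 hv1 h0 h1 m3 m4 a3 b3
    simp only [List.pairwise_cons, List.mem_cons, List.not_mem_nil, or_false, forall_eq_or_imp, forall_eq,
      List.Pairwise.nil, and_true, IsEmpty.forall_iff, implies_true]
    omega
  -- the cost as a function of the indicators
  have hcost : ∀ r, 1 ≤ r → r < p → c.cost (eF n p r) ((cnt p (4 * n + 1) (12 * n) r : ℕ) : ℤ) =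
      c.cost (c.e0 + ind wtE (fun a => a * n % p) r c.od)
        (((c.fl 12 : ℤ) - c.fl 4) + ind wtS (fun a => a * n % p) r c.od) := by
    intro r hr1 hr2
    have f4 := hfl' 4 (by simp)
    have f5 := hfl' 5 (by simp)
    have f6 := hfl' 6 (by simp)
    have f7 := hfl' 7 (by simp)
    have f12 := hfl' 12 (by simp)
    have c4 := cnt_thr p 0 (4 * n) r hp0 (Nat.zero_le _) hr2
    have c6 := cnt_thr p 0 (6 * n) r hp0 (Nat.zero_le _) hr2
    have c412 := cnt_thr p (4 * n) (12 * n) r hp0 (by omega) hr2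
    have c512 := cnt_thr p (5 * n) (12 * n) r hp0 (by omega) hr2
    rw [zero_add, Nat.zero_div, Nat.zero_mod, if_neg (by omega : ¬ r ≤ 0)] at c4 c6
    have i1 : ind wtE (fun a => a * n % p) r c.od = ind wtE (fun a => a * n % p) r [4, 5, 6, 12] := by
      unfold ind
      exact (hP.map _).sum_eq
    have i2 : ind wtS (fun a => a * n % p) r c.od = ind wtS (fun a => a * n % p) r [4, 5, 6, 12] := by
      unfold ind
      exact (hP.map _).sum_eq
    have ee : eF n p r = c.e0 + ind wtE (fun a => a * n % p) r c.od := by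
      rw [i1]
      unfold eF Cell.e0 ind
      rw [c4, c6, c512, f4, f5, f6, f12, f7]
      simp only [List.map_cons, List.map_nil, List.sum_cons, List.sum_nil, wtE]
      split_ifs <;> push_cast <;> ring
    have es : ((cnt p (4 * n + 1) (12 * n) r : ℕ) : ℤ) =
        ((c.fl 12 : ℤ) - c.fl 4) + ind wtS (fun a => a * n % p) r c.od := by
      rw [i2]
      unfold ind
      rw [c412, f4, f12]
      simp only [List.map_cons, List.map_nil, List.sum_cons, List.sum_nil, wtS]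
      split_ifs <;> push_cast <;> ring
    rw [ee, es]
  -- the bound
  have hgo := go_bound c n p hp0 (fun a => a * n % p) c.od 0 c.e0 ((c.fl 12 : ℤ) - c.fl 4) (by
    intro b hb
    refine ⟨Nat.mod_lt _ hp0, ?_⟩
    rcases List.mem_cons.mp hb with rfl | hb
    · simp [Cell.fl]
    · exact hrho b (hmem b hb)) hpw
  have s1 : (c.od.map wtE).sum = 2 := by
    rw [(hP.map _).sum_eq]
    simp [wtE]
  have s2 : (c.od.map wtS).sum = 0 := by
    rw [(hP.map _).sum_eq]
    simp [wtS]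
  rw [s1, s2, add_zero] at hgo
  have hAB1 : c.AB.1 - 2 * c.mu = (c.go 0 (c.e0 + 2) ((c.fl 12 : ℤ) - c.fl 4) c.od).1 := by
    unfold Cell.AB
    ring
  have hAB2 : c.AB.2 = (c.go 0 (c.e0 + 2) ((c.fl 12 : ℤ) - c.fl 4) c.od).2 := rfl
  rw [hAB1, hAB2]
  have hsplit : Finset.range p = insert 0 (Finset.Ioc 0 (p - 1)) := by
    ext x
    simp only [Finset.mem_range, Finset.mem_insert, Finset.mem_Ioc]
    omega
  rw [hsplit, Finset.sum_insert (by simp)]
  have hle : ∑ r ∈ Finset.Ioc 0 (p - 1), f r ≤ ∑ r ∈ Finset.Ioc 0 (p - 1),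
      c.cost (c.e0 + ind wtE (fun a => a * n % p) r c.od)
        (((c.fl 12 : ℤ) - c.fl 4) + ind wtS (fun a => a * n % p) r c.od) := by
    refine Finset.sum_le_sum (fun r hr => ?_)
    rw [Finset.mem_Ioc] at hr
    rw [← hcost r (by omega) (by omega)]
    exact hf r (by omega) (by omega)
  simp only [Nat.zero_mul, Nat.zero_mod] at hgo
  linarith

end Pool.Agent.W52.Z3
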